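import Pool.Agent.AMA7.Gap

/-!
# The gap between the additivity and the uniformity of the meager-additive ideal can be
arbitrarily large
-/

set_option autoImplicit false

namespace Pool.Agent.Results.MP_a38aea_lc.LargeGap

open Cardinal Pool.Agent.AMA7 Pool.Agent.H105.AMA
open Pool.Agent.W684.BMA (MASets additivity)

/-- (1) For every infinite set `K` with `#K ^ ℵ₀ = #K` there are a set `L` and a ccc notion of
forcing `P` all of whose conditions force the sentence `GapFor K (ℕ → Bool) L` (`GapHolds` is its
literal translation into the forcing language; `ℕ → Bool` is the set of the reals of the ground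
model). (2) There are arbitrarily large sets `K` of this kind. (3) If `GapFor K M L` holds, then the
additivity of the ideal of the meager-additive sets is at most `#M` and its uniformity is larger
than `#K`. -/
theorem result :
    (∀ K : Type, Infinite K → #K ^ ℵ₀ = #K →
      ∃ (L P : Type) (_ : Preorder P), Nonempty P ∧
        (∀ A : Set P, (∀ p ∈ A, ∀ q ∈ A, p ≠ q → ¬ ∃ r, r ≤ p ∧ r ≤ q) → A.Countable) ∧
        ∀ p : P, p ∈ GapHolds P K (ℕ → Bool) L) ∧
    (∀ κ : Cardinal.{0}, ∃ K : Type, Infinite K ∧ #K ^ ℵ₀ = #K ∧ κ ≤ #K) ∧
    (∀ K M L : Type, GapFor K M L → additivity MASets ≤ #M ∧ #K < uniformity MASets) :=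
  ⟨fun K _ hK => exists_forcing_gap K hK, exists_large, fun _ _ _ h => gap h⟩

end Pool.Agent.Results.MP_a38aea_lc.LargeGap
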